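import Pool.Agent.THS.StmtsL

/-!
# THS, row NRB (helper98)
-/

set_option autoImplicit false

namespace Pool.Agent.THS.H98

open Pool.Agent.THS

theorem v_sum_le {K : Type} [Field K] (v : AbsoluteValue K ℝ) (hv : IsNonarchimedean v)
    {ι : Type} (s : Finset ι) (f : ι → K) (hf : ∀ i ∈ s, v (f i) ≤ 1) : v (∑ i ∈ s, f i) ≤ 1 := by
  classical
  induction s using Finset.induction_on with
  | empty => simp
  | insert a s ha ih =>
    rw [Finset.sum_insert ha]
    refine (hv _ _).trans (max_le (hf a (Finset.mem_insert_self a s)) (ih fun i hi => ?_))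
    exact hf i (Finset.mem_insert_of_mem hi)

theorem v_sgn {K : Type} [Field K] (v : AbsoluteValue K ℝ) {g : ℕ} (b c : Fin g → ZMod 2) :
    v (sgn b c : K) = 1 := by
  unfold sgn
  push_cast
  rw [map_pow, v.map_neg, v.map_one, one_pow]

theorem nrb (hrqi : RqiStatement) (hmxv : MxvStatement) : NrbStatement := by
  intro K _ v ρ g N α β T x o κ hv h2 hρ0 hρ1 hdisc hT hκ ho hw a
  set w : (Fin g → ZMod 2) → ℤ → K := wn T o κ with hwdef
  have hwe : ∀ c k, w c k = T k c / (T 0 o * κ ^ (k ^ 2)) := fun c k => rfl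
  set a' : Fin g → ZMod 2 := a + o with ha'
  have haa : a' + o = a := by
    rw [ha', add_assoc]
    have : o + o = 0 := by
      funext i
      simp only [Pi.add_apply, Pi.zero_apply]
      exact CharTwo.add_self_eq_zero (o i)
    rw [this, add_zero]
  -- the functions P_b
  let P : (Fin g → ZMod 2) → ℤ → ℤ → K := fun b i j =>
    ∑ c : Fin g → ZMod 2, (sgn b (a' + c) : K) * (w (a' + c) (i + j) * w c (i - j))
  let D : ℤ → ℤ → K := fun i j => (T 0 o * κ ^ ((i + j) ^ 2)) * (T 0 o * κ ^ ((i - j) ^ 2))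
  have hD0 : ∀ i j, D i j ≠ 0 := fun i j =>
    mul_ne_zero (mul_ne_zero ho (zpow_ne_zero _ hκ)) (mul_ne_zero ho (zpow_ne_zero _ hκ))
  have hD : ∀ i j, D i j = T 0 o ^ 2 * (κ ^ (2 * i ^ 2) * κ ^ (2 * j ^ 2)) := by
    intro i j
    have e : κ ^ ((i + j) ^ 2) * κ ^ ((i - j) ^ 2) = κ ^ (2 * i ^ 2) * κ ^ (2 * j ^ 2) := by
      rw [← zpow_add₀ hκ, ← zpow_add₀ hκ]
      congr 1
      ring
    calc D i j = T 0 o ^ 2 * (κ ^ ((i + j) ^ 2) * κ ^ ((i - j) ^ 2)) := by
          simp only [D]; ring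
      _ = _ := by rw [e]
  have hPe : ∀ b i j, P b i j * D i j = RQ T a' b i j := by
    intro b i j
    simp only [P, RQ, Finset.sum_mul]
    refine Finset.sum_congr rfl fun c _ => ?_
    have h1 : w (a' + c) (i + j) * (T 0 o * κ ^ ((i + j) ^ 2)) = T (i + j) (a' + c) := by
      rw [hwe]
      exact div_mul_cancel₀ _ (mul_ne_zero ho (zpow_ne_zero _ hκ))
    have h3 : w c (i - j) * (T 0 o * κ ^ ((i - j) ^ 2)) = T (i - j) c := by
      rw [hwe]
      exact div_mul_cancel₀ _ (mul_ne_zero ho (zpow_ne_zero _ hκ))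
    rw [← h1, ← h3]
    simp only [D]
    ring
  have hPq : ∀ b i j, P b i j = RQ T a' b i j / D i j := fun b i j => by
    rw [← hPe b i j, mul_div_assoc, div_self (hD0 i j), mul_one]
  have hrk : ∀ b i j k l, P b i j * P b k l = P b i l * P b k j := by
    intro b i j k l
    rw [hPq, hPq, hPq, hPq, div_mul_div_comm, div_mul_div_comm, hT.rk1 a' b i j k l]
    congr 1
    rw [hD, hD, hD, hD]
    ring
  have hPv : ∀ b i j, v (P b i j) ≤ 1 := by
    intro b i j
    refine v_sum_le v hv _ _ fun c _ => ?_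
    rw [v.map_mul, v_sgn, one_mul, v.map_mul]
    exact mul_le_one₀ (hw _ _) (v.nonneg _) (hw _ _)
  have hS : ∀ b, ∃ A B : ℤ → K, (∀ i, v (A i) ≤ 1) ∧ (∀ i, v (B i) ≤ 1) ∧
      ∀ i j, P b i j = A i * B j := by
    intro b
    obtain ⟨A, B, hA, hB, hAB⟩ := hmxv K v ρ (P b) hρ0 hρ1 hdisc (hPv b) (hrk b)
    refine ⟨A 0, B 0, hA 0, hB 0, fun i j => ?_⟩
    have h := hAB i j
    rw [Fin.sum_univ_one] at h
    have h' : v (P b i j - A 0 i * B 0 j) = 0 := le_antisymm h (v.nonneg _)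
    exact sub_eq_zero.mp (v.eq_zero.mp h')
  choose A B hA hB hAB using hS
  have h2g : v ((2 : K) ^ g) = 1 := by rw [map_pow, h2, one_pow]
  have h20 : (2 : K) ^ g ≠ 0 := by
    intro h
    rw [h, v.map_zero] at h2g
    exact zero_ne_one h2g
  have hmain : ∀ i j, w a (i + j) * w o (i - j) =
      ∑ b : Fin g → ZMod 2, ((sgn b a : K) / 2 ^ g * A b i) * B b j := by
    intro i j
    have h := hrqi g K T a' o i j
    rw [haa] at h
    have h3 : (2 : K) ^ g * (w a (i + j) * w o (i - j)) =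
        ∑ b : Fin g → ZMod 2, (sgn b a : K) * P b i j := by
      have h4 : ∑ b : Fin g → ZMod 2, (sgn b a : K) * P b i j =
          (∑ b : Fin g → ZMod 2, (sgn b a : K) * RQ T a' b i j) / D i j := by
        rw [Finset.sum_div]
        refine Finset.sum_congr rfl fun b _ => ?_
        rw [hPq, mul_div_assoc]
      rw [h4, h, hwe, hwe, div_mul_div_comm]
      exact (mul_div_assoc _ _ _).symm
    have h5 : w a (i + j) * w o (i - j) =
        (∑ b : Fin g → ZMod 2, (sgn b a : K) * P b i j) / 2 ^ g := by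
      rw [← h3, mul_comm ((2 : K) ^ g), mul_div_assoc, div_self h20, mul_one]
    rw [h5, Finset.sum_div]
    refine Finset.sum_congr rfl fun b _ => ?_
    rw [hAB b i j]
    ring
  have hcard : Fintype.card (Fin g → ZMod 2) = 2 ^ g := by
    rw [Fintype.card_fun, ZMod.card, Fintype.card_fin]
  let e : Fin (2 ^ g) ≃ (Fin g → ZMod 2) := (Fintype.equivFinOfCardEq hcard).symm
  refine ⟨fun s i => (sgn (e s) a : K) / 2 ^ g * A (e s) i, fun s j => B (e s) j, ?_, ?_, ?_⟩
  · intro s i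
    rw [v.map_mul, map_div₀, v_sgn, h2g, div_one, one_mul]
    exact hA _ _
  · intro s i
    exact hB _ _
  · intro i j
    have h6 : ∑ s : Fin (2 ^ g), ((sgn (e s) a : K) / 2 ^ g * A (e s) i) * B (e s) j =
        ∑ b : Fin g → ZMod 2, ((sgn b a : K) / 2 ^ g * A b i) * B b j :=
      Equiv.sum_comp e (fun b => ((sgn b a : K) / 2 ^ g * A b i) * B b j)
    have h7 : w a (i + j) * w o (i - j) - ∑ s : Fin (2 ^ g),
        ((sgn (e s) a : K) / 2 ^ g * A (e s) i) * B (e s) j = 0 := by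
      rw [h6, hmain i j, sub_self]
    show v (w a (i + j) * w o (i - j) - ∑ s : Fin (2 ^ g),
        ((sgn (e s) a : K) / 2 ^ g * A (e s) i) * B (e s) j) ≤ 0
    rw [h7, v.map_zero]

end Pool.Agent.THS.H98
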